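import Pool.Agent.Y303.EJ.Stm
import Pool.Agent.Y6.N.P3

/-!
Project EJ: growth of the tails.
-/

open Set Filter Topology MeasureTheory Metric

set_option autoImplicit false

namespace Pool.Agent.Y888.EJ

open Pool.Agent.Y5 (Pr Pr_cont Pr_deriv Pr_mono Pr_zero mono_of)
open Pool.Agent.Y6.N (src ph)
open Pool.Agent.Y303.EJ

section basics

variable {η : ℝ} {lm L C ℓ : ℕ → ℝ} {B : ℕ → ℕ → ℝ} {T : ℝ} {x R V : ℕ → ℝ → ℝ}

theorem exp_neg_le {y : ℝ} (hy : 0 ≤ y) : Real.exp (-y) ≤ 1 / (y + 1) := by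
  rw [Real.exp_neg, inv_eq_one_div]
  exact one_div_le_one_div_of_le (by linarith) (Real.add_one_le_exp y)

theorem xle (h : Ch η lm L C ℓ B T x R V) (n : ℕ) {t : ℝ} (ht : t ∈ Ico 0 T) :
    |x n t| ≤ R n t := by
  apply abs_le_of_sq_le_sq _ (h.R0 n t ht)
  have h1 := h.Rsq n t ht
  nlinarith [sq_nonneg (R (n + 1) t)]

theorem Rstep (h : Ch η lm L C ℓ B T x R V) (n : ℕ) {t : ℝ} (ht : t ∈ Ico 0 T) :
    R (n + 1) t ≤ R n t := by
  apply le_of_sq_le_sq _ (h.R0 n t ht)
  have h1 := h.Rsq n t ht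
  nlinarith [sq_nonneg (x n t)]

theorem Rle1 (h : Ch η lm L C ℓ B T x R V) (n : ℕ) {t : ℝ} (ht : t ∈ Ico 0 T) : R n t ≤ 1 := by
  induction n with
  | zero => exact h.R1 t ht
  | succ n ih => exact (Rstep h n ht).trans ih

theorem Lpos (h : Ch η lm L C ℓ B T x R V) (n : ℕ) : 0 < L n :=
  lt_of_lt_of_le one_pos (h.nm.L1 n)

theorem e0_pos : 0 < e0 lm := by
  unfold e0
  positivity

theorem e0_le (h : Ch η lm L C ℓ B T x R V) : e0 lm ≤ 1 / 10 ^ 30 := by
  have h1 := h.nm.e1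
  have h2 : 1 ≤ L 0 + lm 0 := by
    have := h.nm.lm1 0
    have := h.nm.L1 0
    linarith
  have h3 := e0_pos (lm := lm)
  nlinarith

theorem ph_pos (n : ℕ) : 0 < ph lm n := Real.exp_pos _

theorem Sg_le (h : Ch η lm L C ℓ B T x R V) (m : ℕ) {t : ℝ} (ht : t ∈ Ico 0 T) :
    |Sg L x m t| ≤ ∑ i ∈ Finset.range m, L i * R i t := by
  unfold Sg
  refine (Finset.abs_sum_le_sum_abs _ _).trans (Finset.sum_le_sum fun i _ => ?_)
  rw [abs_mul, abs_of_pos (Lpos h i)]
  exact mul_le_mul_of_nonneg_left (xle h i ht) (Lpos h i).le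

theorem SumR_le (h : Ch η lm L C ℓ B T x R V) (m : ℕ) {t : ℝ} (ht : t ∈ Ico 0 T) :
    ∑ i ∈ Finset.range m, L i * R i t ≤ ∑ i ∈ Finset.range m, L i :=
  Finset.sum_le_sum fun i _ => mul_le_of_le_one_right (Lpos h i).le (Rle1 h i ht)

theorem cLR (h : Ch η lm L C ℓ B T x R V) (c : ℝ) (i : ℕ) :
    ContinuousOn (fun s => c * R i s) (Ico 0 T) := continuousOn_const.mul (h.cR i)

theorem Ex_cont (h : Ch η lm L C ℓ B T x R V) (m : ℕ) : ContinuousOn (Ex L R m) (Ico 0 T) := by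
  unfold Ex
  exact continuousOn_finsetSum _ fun i _ => Pr_cont (cLR h (L i) i)

theorem Ex_deriv (h : Ch η lm L C ℓ B T x R V) (m : ℕ) {t : ℝ} (ht : t ∈ Ioo 0 T) :
    HasDerivAt (Ex L R m) (∑ i ∈ Finset.range m, L i * R i t) t := by
  have h1 : HasDerivAt (∑ i ∈ Finset.range m, Pr (fun s => L i * R i s))
      (∑ i ∈ Finset.range m, L i * R i t) t :=
    HasDerivAt.sum fun i _ => Pr_deriv (cLR h (L i) i) ht
  have h2 : Ex L R m = ∑ i ∈ Finset.range m, Pr (fun s => L i * R i s) := by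
    funext s
    unfold Ex
    rw [Finset.sum_apply]
  rw [h2]
  exact h1

theorem Ex_zero (m : ℕ) : Ex L R m 0 = 0 := by
  unfold Ex
  exact Finset.sum_eq_zero fun i _ => Pr_zero _

theorem src_nonneg (h : Ch η lm L C ℓ B T x R V) (m : ℕ) (t : ℝ) : 0 ≤ src L C x m t := by
  unfold src
  split_ifs
  · exact le_rfl
  · exact mul_nonneg (mul_nonneg (Lpos h _).le (h.nm.C0 _).le) (sq_nonneg _)

theorem src_le (h : Ch η lm L C ℓ B T x R V) (n : ℕ) {t : ℝ} (ht : t ∈ Ico 0 T) :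
    src L C x (n + 1) t ≤ L n * C n := by
  unfold src
  rw [if_neg n.succ_ne_zero, Nat.add_sub_cancel]
  have h1 : x n t ^ 2 ≤ 1 := by
    have h2 := (xle h n ht).trans (Rle1 h n ht)
    have h3 := abs_nonneg (x n t)
    rw [← sq_abs]
    nlinarith
  exact mul_le_of_le_one_right (mul_nonneg (Lpos h n).le (h.nm.C0 n).le) h1

/-- the bound for the derivative of the energy -/
theorem D_le (h : Ch η lm L C ℓ B T x R V) (n : ℕ) {t : ℝ} (ht : t ∈ Ioo 0 T) :
    HasDerivAt (fun s => R (n + 1) s ^ 2) (deriv (fun s => R (n + 1) s ^ 2) t) t ∧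
    deriv (fun s => R (n + 1) s ^ 2) t ≤
      2 * (∑ i ∈ Finset.range (n + 1), L i * R i t + e0 lm) * R (n + 1) t ^ 2 +
      2 * (L n * C n + 2 * ph lm (n + 1)) * R (n + 1) t := by
  obtain ⟨D, hD, hb⟩ := h.dR (n + 1) t ht
  rw [hD.deriv]
  refine ⟨hD, ?_⟩
  have ht' : t ∈ Ico 0 T := ⟨ht.1.le, ht.2⟩
  have h1 := (abs_le.1 hb).2
  have h2 := (abs_le.1 (Sg_le h (n + 1) ht')).2
  have h3 := h.V0 (n + 1) t ht'
  have h4 := h.R0 (n + 1) t ht'
  have h5 := src_le h n ht'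
  have h6 := src_nonneg h (n + 1) t
  have h7 := (abs_le.1 (xle h (n + 1) ht')).2
  have h8 : src L C x (n + 1) t * x (n + 1) t ≤ L n * C n * R (n + 1) t :=
    (mul_le_mul_of_nonneg_left h7 h6).trans (mul_le_mul_of_nonneg_right h5 h4)
  have h9 : Sg L x (n + 1) t * R (n + 1) t ^ 2 ≤
      (∑ i ∈ Finset.range (n + 1), L i * R i t) * R (n + 1) t ^ 2 :=
    mul_le_mul_of_nonneg_right h2 (sq_nonneg _)
  nlinarith

theorem c_nonneg (h : Ch η lm L C ℓ B T x R V) (n : ℕ) : 0 ≤ L n * C n + 2 * ph lm (n + 1) := by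
  have h1 := mul_nonneg (Lpos h n).le (h.nm.C0 n).le
  have h2 := ph_pos (lm := lm) (n + 1)
  linarith

theorem SumR_nonneg (h : Ch η lm L C ℓ B T x R V) (m : ℕ) {t : ℝ} (ht : t ∈ Ico 0 T) :
    0 ≤ ∑ i ∈ Finset.range m, L i * R i t :=
  Finset.sum_nonneg fun i _ => mul_nonneg (Lpos h i).le (h.R0 i t ht)

end basics

open Pool.Agent.Y6.N in
theorem t_GROW : S_GROW := by
  intro η lm L C ℓ B T x R V h n a b ha hab hb
  have hI : Icc a b ⊆ Ico 0 T := fun t ht => ⟨ha.trans ht.1, ht.2.trans_lt hb⟩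
  have hI' : Ioo a b ⊆ Ioo 0 T := fun t ht => ⟨ha.trans_lt ht.1, ht.2.trans hb⟩
  have key := sqrt_gronQ (Y := fun s => R (n + 1) s ^ 2)
    (D := deriv (fun s => R (n + 1) s ^ 2))
    (P := fun s => (L n * C n + 2 * ph lm (n + 1)) * s)
    (P' := fun _ => L n * C n + 2 * ph lm (n + 1))
    (Q := fun s => Ex L R (n + 1) s + e0 lm * s)
    (Q' := fun s => ∑ i ∈ Finset.range (n + 1), L i * R i s + e0 lm) hab
    (((h.cR (n + 1)).mono hI).pow 2) (fun t _ => sq_nonneg _)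
    (by fun_prop)
    (fun t _ => by simpa using (hasDerivAt_id t).const_mul (L n * C n + 2 * ph lm (n + 1)))
    (fun t _ => c_nonneg h n)
    (((Ex_cont h (n + 1)).mono hI).add (by fun_prop))
    (fun t ht => (Ex_deriv h (n + 1) (hI' ht)).add
      (by simpa using (hasDerivAt_id t).const_mul (e0 lm)))
    (fun t ht => add_nonneg (SumR_nonneg h _ (hI ⟨ht.1.le, ht.2.le⟩)) e0_pos.le)
    (fun t ht => (D_le h n (hI' ht)).1)
    (fun t ht => by
      rw [Real.sqrt_sq (h.R0 _ _ (hI ⟨ht.1.le, ht.2.le⟩))]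
      linarith [(D_le h n (hI' ht)).2])
  simp only [Real.sqrt_sq (h.R0 _ _ (hI ⟨hab, le_rfl⟩)),
    Real.sqrt_sq (h.R0 _ _ (hI ⟨le_rfl, hab⟩))] at key
  refine key.trans (le_of_eq ?_)
  congr 1
  · congr 1; ring
  · ring

open Pool.Agent.Y6.N in
theorem t_GZ : S_GZ := by
  intro η lm L C ℓ B T x R V h n b hb
  have hI : Icc 0 b ⊆ Ico 0 T := fun t ht => ⟨ht.1, ht.2.trans_lt hb.2⟩
  have hI' : Ioo 0 b ⊆ Ioo 0 T := fun t ht => ⟨ht.1, ht.2.trans hb.2⟩
  have hTh : Th L R n = Pr (fun s => L n * R (n + 1) s) := rfl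
  have key := sqrt_gronQ (Y := fun s => R (n + 1) s ^ 2)
    (D := deriv (fun s => R (n + 1) s ^ 2))
    (P := fun s => 2 * Th L R n s + (L n * C n + 2 * ph lm (n + 1)) * s)
    (P' := fun s => 2 * (L n * R (n + 1) s) + (L n * C n + 2 * ph lm (n + 1)))
    (Q := fun _ => 0) (Q' := fun _ => 0) hb.1
    (((h.cR (n + 1)).mono hI).pow 2) (fun t _ => sq_nonneg _)
    ((continuousOn_const.mul (by rw [hTh]; exact (Pr_cont (cLR h (L n) (n + 1))).mono hI)).add
      (by fun_prop))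
    (fun t ht => by
      refine HasDerivAt.add ?_
        (by simpa using (hasDerivAt_id t).const_mul (L n * C n + 2 * ph lm (n + 1)))
      rw [hTh]
      exact (Pr_deriv (cLR h (L n) (n + 1)) (hI' ht)).const_mul 2)
    (fun t ht => add_nonneg (mul_nonneg two_pos.le
      (mul_nonneg (Lpos h n).le (h.R0 _ _ (hI ⟨ht.1.le, ht.2.le⟩)))) (c_nonneg h n))
    continuousOn_const (fun t _ => hasDerivAt_const t 0) (fun t _ => le_rfl)
    (fun t ht => (D_le h n (hI' ht)).1)
    (fun t ht => by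
      have ht' := hI ⟨ht.1.le, ht.2.le⟩
      have hR0 := h.R0 (n + 1) t ht'
      rw [Real.sqrt_sq hR0]
      have h1 := (D_le h n (hI' ht)).2
      have h2 : ∑ i ∈ Finset.range (n + 1), L i * R i t + e0 lm ≤ 2 * L n := by
        have e1 := SumR_le h (n + 1) ht'
        have e2 := h.nm.Lsum n
        have e3 := e0_le h
        have e4 := h.nm.L1 n
        have e5 : (1 : ℝ) / 10 ^ 30 ≤ 1 / 2 := by norm_num
        linarith
      have h3 := mul_le_mul_of_nonneg_right h2 (sq_nonneg (R (n + 1) t))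
      nlinarith)
  have h0 : Th L R n 0 = 0 := Pr_zero _
  simp only [Real.sqrt_sq (h.R0 _ _ (hI ⟨hb.1, le_rfl⟩)),
    Real.sqrt_sq (h.R0 _ _ (hI ⟨le_rfl, hb.1⟩))] at key
  rw [h.hn n, h0, sub_self, Real.exp_zero] at key
  linarith

theorem exp_le_tenth {y : ℝ} (hy : 10 ≤ y) : Real.exp (-y) ≤ 1 / 10 :=
  (exp_neg_le (by linarith)).trans (one_div_le_one_div_of_le (by norm_num) (by linarith))

theorem t_LIP : S_LIP := by
  intro η lm L C ℓ B T x R V h n a b ha hab hb
  have hI : Icc a b ⊆ Ico 0 T := fun t ht => ⟨ha.trans ht.1, ht.2.trans_lt hb⟩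
  have hI' : Ioo a b ⊆ Ioo 0 T := fun t ht => ⟨ha.trans_lt ht.1, ht.2.trans hb⟩
  have hv : ∀ t ∈ Ioo a b, HasDerivAt (x n) (deriv (x n) t) t ∧ |deriv (x n) t| ≤ 3 * L n := by
    intro t ht
    obtain ⟨v, hv, hb⟩ := h.dx n t (hI' ht)
    rw [hv.deriv]
    refine ⟨hv, ?_⟩
    have ht' := hI ⟨ht.1.le, ht.2.le⟩
    have hL := h.nm.L1 n
    have hL0 := Lpos h n
    have hx := xle h n ht'
    have hx1 := hx.trans (Rle1 h n ht')
    have hx0 := abs_nonneg (x n t)
    have hR := Rle1 h (n + 1) ht'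
    have hR0 := h.R0 (n + 1) t ht'
    have hR2 : R (n + 1) t ^ 2 ≤ 1 := by nlinarith
    have hR20 := sq_nonneg (R (n + 1) t)
    have hlm := h.nm.lm1 n
    have hlm' := h.nm.lm1 (n + 1)
    have b1 : |Sg L x n t| ≤ L n / 10 := by
      refine (Sg_le h n ht').trans ((SumR_le h n ht').trans ?_)
      cases n with
      | zero => simp; linarith
      | succ n =>
        have e1 := h.nm.Lsum n
        have e2 := h.nm.Ls n
        have e3 := h.nm.d1 (n + 1)
        have e4 := h.nm.d0 (n + 1)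
        have e5 : dl η (n + 1) * L (n + 1) ≤ 1 * L (n + 1) :=
          mul_le_mul_of_nonneg_right (by linarith) hL0.le
        have e6 := Lpos h n
        have e7 : (101 : ℝ) / 100 * L n ≤ 10 ^ 30 * L n / 10 := by nlinarith
        linarith
    have b2 : |src L C x n t| ≤ L n / 10 := by
      rw [abs_of_nonneg (src_nonneg h n t)]
      cases n with
      | zero =>
        unfold src
        rw [if_pos rfl]
        linarith
      | succ n =>
        have e1 := src_le h n ht'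
        have e2 := h.nm.Ls n
        have e3 := h.nm.d1 (n + 1)
        have e5 : dl η (n + 1) * L (n + 1) ≤ 1 * L (n + 1) :=
          mul_le_mul_of_nonneg_right (by linarith) hL0.le
        have e6 := Lpos h n
        have e7 : C n ≤ 1 / 10 := (h.nm.C1 n).trans (exp_le_tenth (by
          have := h.nm.lm1 n
          linarith))
        have e8 : L n * C n ≤ L n * 1 :=
          mul_le_mul_of_nonneg_left (by linarith) e6.le
        have e9 : L n ≤ 10 ^ 30 * L n / 10 := by nlinarith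
        linarith
    have b3 : |ℓ n * x n t| ≤ L n / 10 := by
      have e0 := h.sq.ℓ_nonneg n
      rw [abs_mul, abs_of_nonneg e0]
      have e1 := h.nm.ℓ1 n
      have e2 := h.nm.d1 n
      have e3 := h.nm.d0 n
      have e4 : dl η n ^ 3 ≤ 1 := pow_le_one₀ e3.le (by linarith)
      have e5 : dl η n ^ 3 * L n ≤ 1 * L n := mul_le_mul_of_nonneg_right e4 hL0.le
      have e6 : ℓ n * |x n t| ≤ ℓ n * 1 := mul_le_mul_of_nonneg_left hx1 e0
      linarith
    have b4 : |L n * R (n + 1) t ^ 2| ≤ L n := by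
      rw [abs_of_nonneg (mul_nonneg hL0.le hR20)]
      exact mul_le_of_le_one_right hL0.le hR2
    have b5 : |Sg L x n t * x n t| ≤ L n / 10 := by
      rw [abs_mul]
      exact (mul_le_of_le_one_right (abs_nonneg _) hx1).trans b1
    have c1 : e0 lm * |x n t| ≤ L n / 10 := by
      have e1 := e0_le h
      have e2 : e0 lm * |x n t| ≤ e0 lm * 1 := mul_le_mul_of_nonneg_left hx1 e0_pos.le
      have e3 : (1 : ℝ) / 10 ^ 30 ≤ 1 / 10 := by norm_num
      linarith
    have c2 : C n * L n * |x n t| * R (n + 1) t ≤ L n / 10 := by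
      have e1 : C n ≤ 1 / 10 := (h.nm.C1 n).trans (exp_le_tenth (by linarith))
      have e2 : C n * L n ≤ 1 / 10 * L n := mul_le_mul_of_nonneg_right e1 hL0.le
      have e3 : 0 ≤ C n * L n := mul_nonneg (h.nm.C0 n).le hL0.le
      have e4 : C n * L n * |x n t| ≤ C n * L n := mul_le_of_le_one_right e3 hx1
      have e5 : C n * L n * |x n t| * R (n + 1) t ≤ C n * L n * |x n t| :=
        mul_le_of_le_one_right (mul_nonneg e3 hx0) hR
      linarith
    have c3 : Real.exp (-(lm (n + 1) / 2)) * R (n + 1) t ^ 2 ≤ L n / 10 := by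
      have e1 : Real.exp (-(lm (n + 1) / 2)) ≤ 1 / 10 := exp_le_tenth (by linarith)
      have e2 := mul_le_of_le_one_right (Real.exp_pos (-(lm (n + 1) / 2))).le hR2
      linarith
    have c4 : ph lm n ≤ L n / 10 := by
      have e1 : ph lm n ≤ 1 / 10 := exp_le_tenth (by linarith)
      linarith
    have d1 := abs_le.1 hb
    have d2 := abs_le.1 b5
    have d3 := abs_le.1 b2
    have d4 := abs_le.1 b3
    have d5 := abs_le.1 b4
    rw [abs_le]
    constructor <;> linarith [d1.1, d1.2, d2.1, d2.2, d3.1, d3.2, d4.1, d4.2, d5.1, d5.2]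
  have m1 := mono_of (f := fun t => 3 * L n * t - x n t) (f' := fun t => 3 * L n - deriv (x n) t)
    hab (ContinuousOn.sub (by fun_prop) ((h.cx n).mono hI))
    (fun t ht => HasDerivAt.sub (by simpa using (hasDerivAt_id t).const_mul (3 * L n)) (hv t ht).1)
    (fun t ht => by linarith [(abs_le.1 (hv t ht).2).2])
  have m2 := mono_of (f := fun t => 3 * L n * t + x n t) (f' := fun t => 3 * L n + deriv (x n) t)
    hab (ContinuousOn.add (by fun_prop) ((h.cx n).mono hI))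
    (fun t ht => HasDerivAt.add (by simpa using (hasDerivAt_id t).const_mul (3 * L n)) (hv t ht).1)
    (fun t ht => by linarith [(abs_le.1 (hv t ht).2).1])
  rw [abs_le]
  constructor
  · linarith
  · linarith

end Pool.Agent.Y888.EJ
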