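import Pool.Agent.Y888.EJ.Grow

/-!
Project EJ: the mode `n + 2` is not very negative.
-/

open Set Filter Topology MeasureTheory Metric

set_option autoImplicit false

namespace Pool.Agent.Y888.EJ

open Pool.Agent.Y5 (Pr Pr_cont Pr_deriv Pr_mono Pr_zero mono_of)
open Pool.Agent.Y6.N (src ph)
open Pool.Agent.Y303.EJ

section basics

variable {η : ℝ} {lm L C ℓ : ℕ → ℝ} {B : ℕ → ℕ → ℝ} {T : ℝ} {x R V : ℕ → ℝ → ℝ}

theorem Th_mono (h : Ch η lm L C ℓ B T x R V) (i : ℕ) {s t : ℝ} (hs : 0 ≤ s) (hst : s ≤ t)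
    (ht : t < T) : Th L R i s ≤ Th L R i t := by
  refine Pr_mono (cLR h (L i) (i + 1)) ⟨hs, hst.trans_lt ht⟩ ⟨hs.trans hst, ht⟩ hst ?_
  intro r hr
  exact mul_nonneg (Lpos h i).le (h.R0 _ _ ⟨hs.trans hr.1.le, hr.2.trans ht⟩)

theorem His_mono (h : Ch η lm L C ℓ B T x R V) {n : ℕ} {s t : ℝ} (hs : 0 ≤ s) (hst : s ≤ t)
    (ht : t < T) (H : His η lm L R n t) : His η lm L R n s where
  time := (mul_le_mul_of_nonneg_left hst (Lpos h 0).le).trans H.time
  old i hi := (Th_mono h i hs hst ht).trans (H.old i hi)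
  next := (Th_mono h (n + 1) hs hst ht).trans H.next

/-- the total exponent of growth -/
theorem Ex_le (h : Ch η lm L C ℓ B T x R V) {n : ℕ} {t : ℝ} (ht : t ∈ Ico 0 T)
    (H : His η lm L R n t) :
    Ex L R (n + 2) t ≤ 3 * ∑ i ∈ Finset.range (n + 2), lm i := by
  unfold Ex
  rw [Finset.mul_sum]
  refine Finset.sum_le_sum fun i hi => ?_
  have hi' := Finset.mem_range.1 hi
  have h0 : (0 : ℝ) ∈ Ico 0 T := ⟨le_rfl, h.hT⟩
  cases i with
  | zero =>
    refine le_trans ?_ H.time
    have h1 := mono_of (f := fun s => L 0 * s - Pr (fun s => L 0 * R 0 s) s)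
      (f' := fun s => L 0 - L 0 * R 0 s) ht.1
      (ContinuousOn.sub (by fun_prop)
        ((Pr_cont (cLR h (L 0) 0)).mono fun s hs => ⟨hs.1, hs.2.trans_lt ht.2⟩))
      (fun s hs => HasDerivAt.sub (by simpa using (hasDerivAt_id s).const_mul (L 0))
        (Pr_deriv (cLR h (L 0) 0) ⟨hs.1, hs.2.trans ht.2⟩))
      (fun s hs => by
        have := mul_le_of_le_one_right (Lpos h 0).le
          (Rle1 h 0 (t := s) ⟨hs.1.le, hs.2.trans ht.2⟩)
        linarith)
    simp only [Pr_zero, mul_zero, sub_zero] at h1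
    linarith
  | succ i =>
    have e1 : (fun s => L (i + 1) * R (i + 1) s) = fun s => lm (i + 1) * (L i * R (i + 1) s) := by
      funext s
      rw [← h.sq.lm_succ i, mul_assoc]
    have e2 : Pr (fun s => L (i + 1) * R (i + 1) s) t = lm (i + 1) * Th L R i t := by
      rw [e1]
      unfold Th Pr
      exact intervalIntegral.integral_const_mul _ _
    rw [e2]
    have e3 := H.old i (by omega)
    have e4 := h.nm.lm1 (i + 1)
    nlinarith

theorem lm_pos (h : Ch η lm L C ℓ B T x R V) (n : ℕ) : 0 < lm n :=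
  lt_of_lt_of_le (by norm_num) (h.nm.lm1 n)

theorem t_le (h : Ch η lm L C ℓ B T x R V) {n : ℕ} {t : ℝ} (ht : t ∈ Ico 0 T)
    (H : His η lm L R n t) : t ≤ 3 * lm 0 := by
  have h1 := H.time
  have h2 := h.nm.L1 0
  have h3 : 1 * t ≤ L 0 * t := mul_le_mul_of_nonneg_right h2 ht.1
  linarith

end basics

theorem t_NEG : S_NEG := by
  intro η lm L C ℓ B T x R V h hfar n t ht H
  set m := n + 2 with hm
  have hI : Icc 0 t ⊆ Ico 0 T := fun s hs => ⟨hs.1, hs.2.trans_lt ht.2⟩
  have hI' : Ioo 0 t ⊆ Ioo 0 T := fun s hs => ⟨hs.1, hs.2.trans ht.2⟩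
  have hLm := Lpos h m
  have hxm0 : x m 0 = 0 := by
    have h1 := xle h m (t := 0) ⟨le_rfl, h.hT⟩
    rw [hm, h.hn (n + 1)] at h1
    exact abs_eq_zero.1 (le_antisymm h1 (abs_nonneg _))
  have hCm : C m * L m ≤ 1 / 2 := by
    have e1 := h.nm.C1 m
    have e2 := h.nm.QL m m (by omega)
    have e3 := h.nm.Qexp m 1 (-(3 / 2)) (-1) (by
      have := h.nm.d1 m
      push_cast
      linarith)
    have e4 : Real.exp (-1 * lm m) ≤ 1 / 2 := by
      rw [neg_one_mul]
      refine (exp_neg_le (lm_pos h m).le).trans ?_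
      have := h.nm.lm1 m
      exact one_div_le_one_div_of_le (by norm_num) (by linarith)
    calc C m * L m ≤ Real.exp (-(3 / 2 * lm m)) * Q η lm m :=
          mul_le_mul e1 e2 hLm.le (Real.exp_pos _).le
      _ = Q η lm m ^ 1 * Real.exp (-(3 / 2) * lm m) := by rw [pow_one, mul_comm, neg_mul]
      _ ≤ _ := e3.trans e4
  have key := Pool.Agent.Y6.N.pos_gron (g := fun s => -x m s) (g' := fun s => -deriv (x m) s)
    (Q := fun s => Ex L R m s + s)
    (Q' := fun s => ∑ i ∈ Finset.range m, L i * R i s + 1) (b := t)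
    (ζ := (L m + 2) * Real.exp (-(lm m))) ht.1
    (mul_nonneg (by linarith) (Real.exp_pos _).le)
    (((h.cx m).mono hI).neg)
    (fun s hs => by
      obtain ⟨v, hv, -⟩ := h.dx m s (hI' hs)
      rw [hv.deriv]
      exact hv.neg)
    (((Ex_cont h m).mono hI).add continuousOn_id)
    (fun s hs => (Ex_deriv h m (hI' hs)).add (hasDerivAt_id s))
    (fun s hs => add_nonneg (SumR_nonneg h _ (hI ⟨hs.1.le, hs.2.le⟩)) zero_le_one)
    (by simp [hxm0])
    (fun s hs hg => by
      obtain ⟨v, hv, hb⟩ := h.dx m s (hI' hs)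
      rw [hv.deriv]
      have hs' := hI ⟨hs.1.le, hs.2.le⟩
      have hR := (hfar n s hs' (His_mono h hs.1.le hs.2.le ht.2 H) m le_rfl).1
      have hR0 := h.R0 (m + 1) s hs'
      have hR1 := Rle1 h (m + 1) hs'
      have hR2 : R (m + 1) s ^ 2 ≤ Real.exp (-(lm m)) := by
        have e1 : R (m + 1) s ^ 2 ≤ Real.exp (-(lm m / 2)) ^ 2 := by gcongr
        have e2 : Real.exp (-(lm m / 2)) ^ 2 = Real.exp (-(lm m)) := by
          rw [← Real.exp_nat_mul]
          congr 1
          push_cast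
          ring
        rwa [e2] at e1
      have hR20 := sq_nonneg (R (m + 1) s)
      have hx : x m s ≤ 0 := by linarith
      rw [abs_of_nonpos hx] at hb
      have hb' := (abs_le.1 hb).1
      have hsg := abs_le.1 (Sg_le h m hs')
      have hsrc := src_nonneg h m s
      have hl := h.sq.ℓ_nonneg m
      have he0 := e0_le h
      have hg' : 0 ≤ -x m s := hg
      -- the terms
      have a1 : -(Sg L x m s * x m s) ≤ (∑ i ∈ Finset.range m, L i * R i s) * -x m s := by
        have := mul_le_mul_of_nonneg_right hsg.2 hg'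
        linarith
      have a2 : 0 ≤ ℓ m * -x m s := mul_nonneg hl hg'
      have a3 : e0 lm * -x m s ≤ 1 / 2 * -x m s :=
        mul_le_mul_of_nonneg_right (he0.trans (by norm_num)) hg'
      have a4 : C m * L m * -x m s * R (m + 1) s ≤ 1 / 2 * -x m s := by
        have e1 : 0 ≤ C m * L m * -x m s :=
          mul_nonneg (mul_nonneg (h.nm.C0 m).le hLm.le) hg'
        exact (mul_le_of_le_one_right e1 hR1).trans (mul_le_mul_of_nonneg_right hCm hg')
      have a5 : L m * R (m + 1) s ^ 2 ≤ L m * Real.exp (-(lm m)) :=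
        mul_le_mul_of_nonneg_left hR2 hLm.le
      have a6 : Real.exp (-(lm (m + 1) / 2)) * R (m + 1) s ^ 2 ≤ Real.exp (-(lm m)) := by
        have e1 : Real.exp (-(lm (m + 1) / 2)) ≤ 1 := by
          rw [Real.exp_le_one_iff]
          have := lm_pos h (m + 1)
          linarith
        exact (mul_le_of_le_one_left hR20 e1).trans hR2
      have a7 : ph lm m = Real.exp (-(lm m)) := rfl
      have a8 : ((∑ i ∈ Finset.range m, L i * R i s) + 1) * -x m s =
        (∑ i ∈ Finset.range m, L i * R i s) * -x m s + -x m s := by ring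
      have a9 : (L m + 2) * Real.exp (-(lm m)) =
        L m * Real.exp (-(lm m)) + 2 * Real.exp (-(lm m)) := by ring
      have a10 : ℓ m * x m s = -(ℓ m * -x m s) := by ring
      rw [a8, a9]
      linarith)
  rw [Ex_zero, add_zero, sub_zero] at key
  -- the exponent
  have hsum := h.nm.lmsum (n + 1)
  have hExt : Ex L R m t + t ≤ dl η m * lm m / 10 ^ 6 := by
    have e1 := Ex_le h ht H
    have e2 := t_le h ht H
    have e3 : lm 0 ≤ ∑ i ∈ Finset.range (n + 2), lm i :=
      Finset.single_le_sum (f := lm) (fun i _ => (lm_pos h i).le) (Finset.mem_range.2 (by omega))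
    have e4 : 10 ^ 7 * ∑ i ∈ Finset.range (n + 2), lm i ≤ dl η m * lm m := hsum
    have e5 : 0 ≤ ∑ i ∈ Finset.range (n + 2), lm i :=
      Finset.sum_nonneg fun i _ => (lm_pos h i).le
    rw [← hm] at e1 e3 e4 e5
    linarith
  have hQ : Real.exp (Ex L R m t + t) ≤ Q η lm m := Real.exp_le_exp.2 hExt
  have hQ1 := h.nm.Q1 m
  have hQL := h.nm.QL m m (by omega)
  have hQlm := h.nm.Qlm m 0 (by omega)
  have hE0 := Real.exp_pos (-(lm m))
  have htb : t ≤ 3 * Q η lm m := (t_le h ht H).trans (by linarith)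
  have h5 := h.nm.Qexp m 4 (-1) (-(1 / 2)) (by
    have := h.nm.d1 m
    push_cast
    linarith)
  have h6 : Real.exp (Ex L R m t + t) * ((L m + 2) * Real.exp (-(lm m)) * t) ≤
      Real.exp (-(lm m / 2)) := by
    have hQ0 : 0 < Q η lm m := lt_of_lt_of_le (by norm_num) hQ1
    calc Real.exp (Ex L R m t + t) * ((L m + 2) * Real.exp (-(lm m)) * t)
        ≤ Q η lm m * ((2 * Q η lm m) * Real.exp (-(lm m)) * (3 * Q η lm m)) := by
          have : L m + 2 ≤ 2 * Q η lm m := by linarith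
          have ht0 := ht.1
          gcongr
      _ = 6 * Q η lm m ^ 3 * Real.exp (-(lm m)) := by ring
      _ ≤ Q η lm m ^ 4 * Real.exp (-(lm m)) := by
          have : 6 * Q η lm m ^ 3 ≤ Q η lm m ^ 4 := by
            have e1 : (6 : ℝ) ≤ Q η lm m := le_trans (by norm_num) hQ1
            calc 6 * Q η lm m ^ 3 ≤ Q η lm m * Q η lm m ^ 3 :=
                  mul_le_mul_of_nonneg_right e1 (by positivity)
              _ = Q η lm m ^ 4 := by ring
          gcongr
      _ = Q η lm m ^ 4 * Real.exp (-1 * lm m) := by rw [neg_one_mul]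
      _ ≤ Real.exp (-(1 / 2) * lm m) := h5
      _ = Real.exp (-(lm m / 2)) := by congr 1; ring
  have h7 : -x m t ≤ Real.exp (-(lm m / 2)) := key.trans h6
  linarith

end Pool.Agent.Y888.EJ
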